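import Pool.Agent.H20.HB.EXI
import Pool.Agent.H27.HB.TG

/-! CEQ: equivariance of centring. -/

set_option autoImplicit false

namespace Pool.Agent.H8.HB

open MeasureTheory Set Filter Topology Pool.Agent.H80.HS Pool.Agent.H93.HQ Pool.Agent.H27.HB
open Pool.Agent.H20.HB
open scoped ContDiff ENNReal

variable {n : ℕ}

theorem sq_eq_sum (z : H n) : sq z = ∑ j, Complex.normSq (zc j z) := by
  unfold H93.HQ.sq zc
  rw [EuclideanSpace.norm_sq_eq, EuclideanSpace.norm_sq_eq, ← Finset.sum_add_distrib]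
  refine Finset.sum_congr rfl fun j _ => ?_
  rw [Complex.normSq_apply, Real.norm_eq_abs, Real.norm_eq_abs, sq_abs, sq_abs]
  simp [pow_two]

theorem zc_ua (A : Matrix (Fin n) (Fin n) ℂ) (i : Fin n) (z : H n) :
    zc i (ua A z) = ∑ j, A i j * zc j z := by
  unfold zc ua
  exact Complex.ext rfl rfl

/-- inverse relation -/
theorem zc_inv {A : Matrix (Fin n) (Fin n) ℂ} (hA : A ∈ Matrix.unitaryGroup (Fin n) ℂ)
    (v : Fin n → ℂ) (j : Fin n) : ∑ i, star (A i j) * ∑ k, A i k * v k = v j := by
  have h1 : star A * A = 1 := Matrix.mem_unitaryGroup_iff'.mp hA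
  have h2 : ∀ k, ∑ i, star (A i j) * A i k = if j = k then 1 else 0 := by
    intro k
    have := congrFun (congrFun h1 j) k
    rw [Matrix.mul_apply, Matrix.one_apply] at this
    simpa [Matrix.star_apply] using this
  calc ∑ i, star (A i j) * ∑ k, A i k * v k = ∑ k, (∑ i, star (A i j) * A i k) * v k := by
        simp only [Finset.mul_sum, Finset.sum_mul]
        rw [Finset.sum_comm]
        refine Finset.sum_congr rfl fun i _ => Finset.sum_congr rfl fun k _ => ?_
        ring
    _ = v j := by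
        simp only [h2]
        simp

theorem sq_ua {A : Matrix (Fin n) (Fin n) ℂ} (hA : A ∈ Matrix.unitaryGroup (Fin n) ℂ) (z : H n) :
    sq (ua A z) = sq z := by
  have h1 : ((sq (ua A z) : ℝ) : ℂ) = ((sq z : ℝ) : ℂ) := by
    rw [sq_eq_sum, sq_eq_sum, Complex.ofReal_sum, Complex.ofReal_sum]
    have e1 : ∀ w : ℂ, ((Complex.normSq w : ℝ) : ℂ) = star w * w := fun w =>
      Complex.normSq_eq_conj_mul_self
    simp only [e1, zc_ua]
    have e2 : ∀ i, star (∑ j, A i j * zc j z) * ∑ k, A i k * zc k z =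
        ∑ j, star (zc j z) * (star (A i j) * ∑ k, A i k * zc k z) := by
      intro i
      rw [star_sum, Finset.sum_mul]
      refine Finset.sum_congr rfl fun j _ => ?_
      rw [star_mul']
      ring
    simp only [e2]
    rw [Finset.sum_comm]
    refine Finset.sum_congr rfl fun j _ => ?_
    rw [← Finset.mul_sum, zc_inv hA (fun k => zc k z) j]
  exact_mod_cast h1

theorem nu_ua {A : Matrix (Fin n) (Fin n) ℂ} (hA : A ∈ Matrix.unitaryGroup (Fin n) ℂ) (z : H n) :
    nu (ua A z) = nu z := by
  unfold nu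
  rw [sq_ua hA]
  rfl

theorem zz_some_ua {A : Matrix (Fin n) (Fin n) ℂ} (hA : A ∈ Matrix.unitaryGroup (Fin n) ℂ)
    (j : Fin n) (z : H n) : zz (some j) z = ∑ i, star (A i j) * zz (some i) (ua A z) := by
  have h1 : ∀ i, star (A i j) * zz (some i) (ua A z) =
      2 / nu z * (star (A i j) * ∑ k, A i k * zc k z) := by
    intro i
    show star (A i j) * (2 * zc i (ua A z) / nu (ua A z)) = _
    rw [zc_ua, nu_ua hA]
    ring
  simp only [h1]
  rw [← Finset.mul_sum, zc_inv hA (fun k => zc k z) j]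
  show 2 * zc j z / nu z = _
  ring

theorem zz_none_ua {A : Matrix (Fin n) (Fin n) ℂ} (hA : A ∈ Matrix.unitaryGroup (Fin n) ℂ)
    (z : H n) : zz none z = zz none (ua A z) := by
  show 2 / nu z - 1 = 2 / nu (ua A z) - 1
  rw [nu_ua hA]

theorem sq_rfn (z : H n) : sq (rfn z) = sq z := by
  unfold H93.HQ.sq rfn
  simp

theorem nu_rfn (z : H n) : nu (rfn z) = (starRingEnd ℂ) (nu z) := by
  refine Complex.ext ?_ ?_
  · show 1 + sq (rfn z) = 1 + sq z
    rw [sq_rfn]
  · show -(rfn z).2.2 = -(-z.2.2)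
    rfl

theorem zc_rfn (j : Fin n) (z : H n) : zc j (rfn z) = (starRingEnd ℂ) (zc j z) :=
  Complex.ext rfl rfl

theorem zz_rfn (i : Option (Fin n)) (z : H n) : zz i (rfn z) = (starRingEnd ℂ) (zz i z) := by
  rcases i with _ | j
  · show 2 / nu (rfn z) - 1 = (starRingEnd ℂ) (2 / nu z - 1)
    rw [nu_rfn]
    rw [map_sub, map_div₀, map_ofNat, map_one]
  · show 2 * zc j (rfn z) / nu (rfn z) = (starRingEnd ℂ) (2 * zc j z / nu z)
    rw [nu_rfn, zc_rfn]
    rw [map_div₀, map_mul, map_ofNat]

/-- complex form of centring -/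
theorem int_cc {ρ : H n → ℝ} (hρ : Integrable ρ) (i : Option (Fin n)) :
    Integrable (fun z => (ρ z : ℂ) * zz i z) := by
  have h1 : Integrable (fun z => (ρ z : ℂ)) := hρ.ofReal
  refine h1.mul_bdd (c := 1) (cont_zz i).aestronglyMeasurable (Eventually.of_forall fun z => ?_)
  exact zz_le i z

theorem re_int {ρ : H n → ℝ} (hρ : Integrable ρ) (i : Option (Fin n)) :
    (∫ z, (ρ z : ℂ) * zz i z).re = ∫ z, ρ z * rz i true z := by
  have h1 : ∫ z, ((ρ z : ℂ) * zz i z).re = (∫ z, (ρ z : ℂ) * zz i z).re :=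
    integral_re (int_cc hρ i)
  rw [← h1]
  refine integral_congr_ae (Eventually.of_forall fun z => ?_)
  exact Complex.re_ofReal_mul _ _

theorem im_int {ρ : H n → ℝ} (hρ : Integrable ρ) (i : Option (Fin n)) :
    (∫ z, (ρ z : ℂ) * zz i z).im = ∫ z, ρ z * rz i false z := by
  have h1 : ∫ z, ((ρ z : ℂ) * zz i z).im = (∫ z, (ρ z : ℂ) * zz i z).im :=
    integral_im (int_cc hρ i)
  rw [← h1]
  refine integral_congr_ae (Eventually.of_forall fun z => ?_)
  exact Complex.im_ofReal_mul _ _

theorem cen_iff {ρ : H n → ℝ} (hρ : Integrable ρ) :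
    Cen ρ ↔ ∀ i, ∫ z, (ρ z : ℂ) * zz i z = 0 := by
  constructor
  · intro h i
    refine Complex.ext ?_ ?_
    · rw [re_int hρ, h i true]
      rfl
    · rw [im_int hρ, h i false]
      rfl
  · intro h i b
    rcases b with _ | _
    · rw [← im_int hρ, h i]
      rfl
    · rw [← re_int hρ, h i]
      rfl

/-- change of variables -/
theorem int_comp {E : Type} [NormedAddCommGroup E] [NormedSpace ℝ E] {Φ : H n → H n}
    (hΦ : MeasurePreserving Φ (volume : Measure (H n)) volume) {g : H n → E}
    (hg : Integrable g) : ∫ z, g (Φ z) = ∫ z, g z := by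
  have h1 : ∫ z, g z ∂(Measure.map Φ volume) = ∫ z, g (Φ z) := by
    refine integral_map hΦ.measurable.aemeasurable ?_
    rw [hΦ.map_eq]
    exact hg.aestronglyMeasurable
  rw [← h1, hΦ.map_eq]

theorem pf_CEQ (hUNA : T_UNA) : T_CEQ := by
  intro n hn Φ hΦ ρ hρ hC
  have hn1 : (1 : ℝ) ≤ n := by exact_mod_cast hn
  have MP := (hUNA n hn 2 (by norm_num) (by linarith) Φ hΦ).1
  have hρΦ : Integrable (fun z => ρ (Φ z)) :=
    (MP.integrable_comp hρ.aestronglyMeasurable).mpr hρ
  rcases hΦ with ⟨A, hA, rfl⟩ | rfl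
  · rw [cen_iff hρ] at hC
    rw [cen_iff hρΦ]
    intro i
    have hI : ∀ i, Integrable (fun z => (ρ (ua A z) : ℂ) * zz i (ua A z)) := fun i =>
      (MP.integrable_comp (int_cc hρ i).aestronglyMeasurable).mpr (int_cc hρ i)
    rcases i with _ | j
    · have h1 : (fun z => (ρ (ua A z) : ℂ) * zz none z) =
          fun z => (ρ (ua A z) : ℂ) * zz none (ua A z) := by
        funext z
        rw [← zz_none_ua hA]
      rw [h1]
      exact (int_comp MP (int_cc hρ none)).trans (hC none)
    · have h1 : (fun z => (ρ (ua A z) : ℂ) * zz (some j) z) =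
          fun z => ∑ i, star (A i j) * ((ρ (ua A z) : ℂ) * zz (some i) (ua A z)) := by
        funext z
        rw [zz_some_ua hA j z, Finset.mul_sum]
        refine Finset.sum_congr rfl fun i _ => ?_
        ring
      rw [h1, integral_finsetSum _ fun i _ => (hI (some i)).const_mul _]
      refine Finset.sum_eq_zero fun i _ => ?_
      rw [integral_const_mul, (int_comp MP (int_cc hρ (some i))).trans (hC (some i)), mul_zero]
  · intro i b
    have hI : ∀ b, Integrable (fun z => ρ z * rz i b z) := fun b =>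
      hρ.mul_bdd (c := 1) (cont_rz i b).aestronglyMeasurable
        (Eventually.of_forall fun z => rz_le i b z)
    rcases b with _ | _
    · have h1 : (fun z => ρ (rfn z) * rz i false z) =
          fun z => -(ρ (rfn z) * rz i false (rfn z)) := by
        funext z
        show ρ (rfn z) * (zz i z).im = -(ρ (rfn z) * (zz i (rfn z)).im)
        rw [zz_rfn, Complex.conj_im]
        ring
      rw [h1, integral_neg, int_comp MP (hI false), hC i false, neg_zero]
    · have h1 : (fun z => ρ (rfn z) * rz i true z) =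
          fun z => ρ (rfn z) * rz i true (rfn z) := by
        funext z
        show ρ (rfn z) * (zz i z).re = ρ (rfn z) * (zz i (rfn z)).re
        rw [zz_rfn, Complex.conj_re]
      rw [h1, int_comp MP (hI true), hC i true]

end Pool.Agent.H8.HB
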